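import Pool.Agent.Lib.MP_0549f6_nt.Main
import Pool.Agent.Lib.MP_0549f6_nt.Char
import Pool.Agent.Lib.MP_0549f6_nt.FineMain

/-!
# MP_0549f6_nt: a bound for the number of prime `v`-palindromes in base ten

For every `N` the number of the primes `p < 10^N` which are `v`-palindromes in base ten is at most
`(3/20) N + 10^40`, and at most `(20/77) N + 15400`.
-/

set_option autoImplicit false

namespace Pool.Agent.Results.MP_0549f6_nt.PrimeVPalindromes

open Pool.Agent.Lib.MP_0549f6_nt

/-- The number of the primes below `10^N` which are `v`-palindromes in base ten is at most the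
smaller of `(3/20) N + 10^40` and `(20/77) N + 15400`. -/
theorem result (N : ℕ) :
    (({p : ℕ | p.Prime ∧ IsVPalindrome p ∧ p < 10 ^ N}).ncard : ℝ) ≤
      min (3 / 20 * (N : ℝ) + 10 ^ 40) (20 / 77 * (N : ℝ) + 15400) := by
  classical
  have h := both_card N
  have hf := Fine.both_card_fine N
  have hsub : {p : ℕ | p.Prime ∧ IsVPalindrome p ∧ p < 10 ^ N} ⊆
      ((Finset.range 1000 ∪ ((Finset.range N).filter Both).image (fun m => 5 * 10 ^ m - 1) :
        Finset ℕ) : Set ℕ) := by
    rintro p ⟨hp, hv, hN⟩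
    rw [Finset.mem_coe, Finset.mem_union, Finset.mem_range, Finset.mem_image]
    rcases Nat.lt_or_ge p 1000 with h1 | h1
    · exact Or.inl h1
    · right
      obtain ⟨m, hm, hm2⟩ := char hp h1 hv
      refine ⟨m, ?_, hm.symm⟩
      rw [Finset.mem_filter, Finset.mem_range]
      refine ⟨?_, ?_, hm2⟩
      · by_contra hcon
        have h2 : 10 ^ N ≤ 10 ^ m := Nat.pow_le_pow_right (by norm_num) (by omega)
        have h3 : 1 ≤ 10 ^ m := Nat.one_le_pow _ _ (by norm_num)
        omega
      · rw [← hm]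
        exact hp
  have h2 := Set.ncard_le_ncard hsub (Finset.finite_toSet _)
  rw [Set.ncard_coe_finset] at h2
  have h3 := Finset.card_union_le (Finset.range 1000)
    (((Finset.range N).filter Both).image (fun m => 5 * 10 ^ m - 1))
  have h4 : (((Finset.range N).filter Both).image (fun m => 5 * 10 ^ m - 1)).card ≤
      ((Finset.range N).filter Both).card := Finset.card_image_le
  rw [Finset.card_range] at h3
  have h5 : ({p : ℕ | p.Prime ∧ IsVPalindrome p ∧ p < 10 ^ N}).ncard ≤
      1000 + ((Finset.range N).filter Both).card := by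
    omega
  have h5' : ({p : ℕ | p.Prime ∧ IsVPalindrome p ∧ p < 10 ^ N}).ncard ≤
      1000 + 14400 * (N / 55440 + 1) := by
    omega
  have h0 : ((({p : ℕ | p.Prime ∧ IsVPalindrome p ∧ p < 10 ^ N}).ncard : ℕ) : ℝ) ≤
      1000 + (((Finset.range N).filter Both).card : ℝ) := by
    exact_mod_cast h5
  have h1 : ((({p : ℕ | p.Prime ∧ IsVPalindrome p ∧ p < 10 ^ N}).ncard : ℕ) : ℝ) ≤
      1000 + 14400 * (((N / 55440 : ℕ) : ℝ) + 1) := by
    exact_mod_cast h5'
  have h6 : ((N / 55440 : ℕ) : ℝ) ≤ (N : ℝ) / 55440 := by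
    exact_mod_cast Nat.cast_div_le (α := ℝ) (m := N) (n := 55440)
  have h7 : (1000 : ℝ) + 10 ^ 39 ≤ 10 ^ 40 := by norm_num
  refine le_min ?_ ?_
  · linarith
  · linarith

end Pool.Agent.Results.MP_0549f6_nt.PrimeVPalindromes
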